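import Pool.Agent.Helper98.ZB.Stmts
import Pool.Agent.Helper99.ZA.ZRL

/-!
Row ZRW of the sheet ZB: the first `k` functions as a tower on `ℂ^k`.
-/

open MeasureTheory Filter Topology Finset
open scoped ComplexConjugate

namespace Pool.Agent.Helper99.ZB

open Pool.Agent.Helper98.TW
open Pool.Agent.Helper98.TA
open Pool.Agent.Helper98.ZA
open Pool.Agent.Helper99.ZA

theorem st_ZRW : Pool.Agent.Helper98.ZB.ST_ZRW := by
  intro Y _ ν _ S u hSm hu k
  choose g hgm hg using hu.inc
  have hprm : Measurable (pr u k) := measurable_pi_iff.2 fun i => hu.meas i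
  set μ : Measure (Fin k → ℂ) := ν.map (pr u k) with hμ
  have hco : ∀ i < k, ∀ y, co i (pr u k y) = u i y := by
    intro i hi y
    rw [co_lt hi]
    rfl
  -- the equation
  have hR : ∀ᵐ y ∂ν, pr u k (S y) = RR g k (pr u k y) := by
    have h1 : ∀ᵐ y ∂ν, ∀ i : ℕ, u i (S y) = u i y * g i (fun j => u j y) :=
      ae_all_iff.2 hg
    filter_upwards [h1] with y hy
    funext i
    have h2 := co_RR g k (pr u k y) i.2
    rw [co_lt i.2, co_lt i.2] at h2
    have h3 : RR g k (pr u k y) i = pr u k y i *
      Sg (g i (fun j : Fin i => co j (pr u k y))) := h2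
    have h4 : (fun j : Fin (i : ℕ) => co j (pr u k y)) = fun j : Fin (i : ℕ) => u j y := by
      funext j
      exact hco _ (lt_trans j.2 i.2) y
    rw [h3, h4]
    have h5 : ‖g i (fun j : Fin (i : ℕ) => u j y)‖ = 1 := by
      have h6 := congrArg norm (hy i)
      rw [norm_mul, hu.norm, hu.norm, one_mul] at h6
      exact h6.symm
    rw [Sg_of _ h5]
    exact hy i
  have hmpR : MeasurePreserving (RR g k) μ μ := by
    refine ⟨RR_meas hgm k, ?_⟩
    rw [hμ, Measure.map_map (RR_meas hgm k) hprm]
    have h1 : (RR g k) ∘ (pr u k) =ᵐ[ν] (pr u k) ∘ S := by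
      filter_upwards [hR] with y hy
      exact hy.symm
    rw [Measure.map_congr h1, ← Measure.map_map hprm hSm.measurable, hSm.map_eq]
  have hmpI : MeasurePreserving (RI g k) μ μ := by
    refine ⟨RI_meas hgm k, ?_⟩
    have h1 : Measure.map (RI g k) (Measure.map (RR g k) μ) = μ := by
      rw [Measure.map_map (RI_meas hgm k) (RR_meas hgm k)]
      have : (RI g k) ∘ (RR g k) = id := funext fun z => RI_RR g k z
      rw [this, Measure.map_id]
    rwa [hmpR.map_eq] at h1
  have huf : ∀ i, UF μ (fun z => co i z) := by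
    intro i
    refine ⟨co_meas i, ?_⟩
    by_cases h : i < k
    · have hms : MeasurableSet {z : Fin k → ℂ | ‖co i z‖ = 1} :=
        (co_meas i).norm (measurableSet_singleton _)
      rw [hμ, ae_map_iff hprm.aemeasurable hms]
      exact Eventually.of_forall fun y => by rw [hco i h, hu.norm]
    · refine Eventually.of_forall fun z => ?_
      have h1 := co_ge h z
      show ‖co i z‖ = 1
      rw [h1]
      simp
  -- the coordinates are measurable for the algebras
  have hle : ∀ j, @LE.le (MeasurableSpace (Fin k → ℂ)) _ (AA μ j) (AA μ (j + 1)) :=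
    fun j => le_ad
  have hcm : ∀ j, ∀ l < j, Measurable[AA μ j] (fun z : Fin k → ℂ => co l z) := by
    intro j
    induction j with
    | zero => intro l hl; exact absurd hl (Nat.not_lt_zero _)
    | succ j ih =>
      intro l hl
      rcases Nat.lt_succ_iff_lt_or_eq.1 hl with h | h
      · exact (ih l h).mono (hle j) le_rfl
      · subst h
        have h1 : Measurable[sg (Pw μ (AA μ l) (fun z => co l z))]
            (fun z : Fin k → ℂ => co l z) :=
          Pool.Agent.Helper73.TWR.meas_sg (mem_Pw_self (huf l))
        exact h1.mono le_jo_right le_rfl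
  refine ⟨RR g k, RI g k, ⟨hmpR, hmpI, Eventually.of_forall fun z => RI_RR g k z,
    Eventually.of_forall fun z => RR_RI g k z⟩, hR, AA μ, rfl, fun _ => rfl, huf, ?_, ?_⟩
  · intro j
    by_cases hj : j < k
    · have h1 : Measurable[AA μ j] (fun z : Fin k → ℂ => Sg (g j (fun l : Fin j => co l z))) := by
        have h2 : Measurable[AA μ j] (fun (z : Fin k → ℂ) (l : Fin j) => co l z) :=
          @measurable_pi_lambda (Fin k → ℂ) (Fin j) (fun _ => ℂ) (AA μ j) _ _
            fun l => hcm j l l.2
        exact Sg_meas.comp ((hgm j).comp h2)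
      refine am_congr (am_of h1) ?_
      filter_upwards [(huf j).mul_conj] with z hz
      rw [co_RR g k z hj]
      linear_combination -(Sg (g j (fun l : Fin j => co l z))) * hz
    · refine am_congr (am_const 1) (Eventually.of_forall fun z => ?_)
      show (1 : ℂ) = co j (RR g k z) * conj (co j z)
      rw [co_ge hj, co_ge hj]
      simp
  · intro f hf
    have h1 : Measurable[AA μ k, MeasurableSpace.pi] (fun z : Fin k → ℂ => z) := by
      refine @measurable_pi_lambda (Fin k → ℂ) (Fin k) (fun _ => ℂ) (AA μ k) _ _ fun l => ?_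
      have h2 := hcm k l l.2
      have h3 : (fun z : Fin k → ℂ => co l z) = fun z => z l := funext fun z => co_lt l.2 z
      rw [h3] at h2
      exact h2
    exact am_of (hf.comp h1)

end Pool.Agent.Helper99.ZB
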