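import Pool.Agent.Helper98.ZB.Stmts
import Pool.Agent.Helper40.Wiener2

/-!
Row ZWS of the sheet ZB: the discrete part and the random part of a section.
-/

open MeasureTheory Filter Topology Finset
open scoped ComplexConjugate InnerProductSpace

namespace Pool.Agent.Helper99.ZB

open Pool.Agent.Helper98.TW (Sys)
open Pool.Agent.Helper16.AZ (E Op Eig PP)
open Pool.Agent.Helper16.BZ (Wk)
open Pool.Agent.Helper98.ZB

section hilbert

variable {H : Type} [NormedAddCommGroup H] [InnerProductSpace ℂ H] [CompleteSpace H]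

theorem wm_all (U : H →L[ℂ] H) (hU : U ∈ unitary (H →L[ℂ] H)) (ξ g : H)
    (hξ : ∀ (z : ℂ) (η : H), U η = z • η → inner ℂ ξ η = 0) :
    Tendsto (fun N : ℕ => (∑ n ∈ range N, ‖(inner ℂ g ((U ^ n) ξ) : ℂ)‖ ^ 2) / (N : ℝ))
      atTop (𝓝 0) := by
  have hwm := Pool.Agent.Helper40.Wiener.wm_of_cts U hU ξ hξ
  set K : ℝ := ‖g‖ * ‖ξ‖ + 1 with hK
  have hK0 : 0 < K := by positivity
  have hbd : ∀ n : ℕ, ‖(inner ℂ g ((U ^ n) ξ) : ℂ)‖ ≤ K := by
    intro n
    have h1 := norm_inner_le_norm (𝕜 := ℂ) g ((U ^ n) ξ)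
    rw [Pool.Agent.Helper40.Wiener.norm_pow_apply U hU n ξ] at h1
    linarith
  set x : ℕ → H := fun n => (U ^ n) ξ with hx
  set c : ℕ → ℂ := fun n => conj (inner ℂ g ((U ^ n) ξ) : ℂ) / (K : ℂ) with hc
  have hc1 : ∀ n, ‖c n‖ ≤ 1 := by
    intro n
    rw [hc]
    simp only
    rw [norm_div, RCLike.norm_conj, Complex.norm_real, Real.norm_of_nonneg hK0.le]
    exact (div_le_one hK0).2 (hbd n)
  have hxx : ∀ m k, ‖(inner ℂ (x m) (x (m + k)) : ℂ)‖ ≤ ‖(inner ℂ ξ ((U ^ k) ξ) : ℂ)‖ := by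
    intro m k
    rw [hx]
    simp only
    have h1 : (U ^ (m + k)) ξ = (U ^ m) ((U ^ k) ξ) := by rw [pow_add]; rfl
    have h2 : (inner ℂ ((U ^ m) ξ) ((U ^ m) ((U ^ k) ξ)) : ℂ) = inner ℂ ξ ((U ^ k) ξ) := by
      have hUm : U ^ m ∈ unitary (H →L[ℂ] H) := pow_mem hU m
      rw [← ContinuousLinearMap.adjoint_inner_right, ← ContinuousLinearMap.star_eq_adjoint]
      have : star (U ^ m) ((U ^ m) ((U ^ k) ξ)) = (star (U ^ m) * (U ^ m)) ((U ^ k) ξ) := rfl
      rw [this, (Unitary.mem_iff.1 hUm).1]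
      rfl
    rw [h1, h2]
  have hsq := Pool.Agent.Helper40.Wiener.norm_sq_sum_le x c hc1
    (fun k => ‖(inner ℂ ξ ((U ^ k) ξ) : ℂ)‖) (fun _ => norm_nonneg _) hxx
  have ht := Pool.Agent.Helper40.Wiener.tendsto_of_sq
    (fun N => ‖∑ n ∈ range N, c n • x n‖) (fun _ => norm_nonneg _)
    (fun k => ‖(inner ℂ ξ ((U ^ k) ξ) : ℂ)‖) hsq hwm
  have ht2 := ht.const_mul (K * ‖g‖)
  rw [mul_zero] at ht2
  refine squeeze_zero (fun N => by positivity) (fun N => ?_) ht2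
  rw [← mul_div_assoc]
  refine div_le_div_of_nonneg_right ?_ (Nat.cast_nonneg N)
  have h1 : ((∑ n ∈ range N, ‖(inner ℂ g ((U ^ n) ξ) : ℂ)‖ ^ 2 : ℝ) : ℂ) =
      (K : ℂ) * inner ℂ g (∑ n ∈ range N, c n • x n) := by
    rw [inner_sum, mul_sum, Complex.ofReal_sum]
    refine sum_congr rfl fun n _ => ?_
    rw [inner_smul_right, hc, hx, Complex.ofReal_pow]
    simp only
    generalize (inner ℂ g ((U ^ n) ξ) : ℂ) = v
    have hKc : (K : ℂ) ≠ 0 := by exact_mod_cast hK0.ne'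
    have h2 := Complex.mul_conj v
    rw [Complex.normSq_eq_norm_sq] at h2
    push_cast at h2
    rw [← h2]
    field_simp
  have h2 : ∑ n ∈ range N, ‖(inner ℂ g ((U ^ n) ξ) : ℂ)‖ ^ 2 =
      ‖((∑ n ∈ range N, ‖(inner ℂ g ((U ^ n) ξ) : ℂ)‖ ^ 2 : ℝ) : ℂ)‖ := by
    rw [Complex.norm_real, Real.norm_of_nonneg (by positivity)]
  rw [h2, h1, norm_mul, Complex.norm_real, Real.norm_of_nonneg hK0.le, mul_assoc]
  exact mul_le_mul_of_nonneg_left (norm_inner_le_norm _ _) hK0.le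

/-- a vector orthogonal to the closed span of the eigenvectors is orthogonal to all of them -/
theorem perp_eig (U : H →L[ℂ] H) (hU : U ∈ unitary (H →L[ℂ] H)) (ξ : H) (hξ : ξ ∈ (PP U)ᗮ) :
    ∀ (z : ℂ) (η : H), U η = z • η → inner ℂ ξ η = 0 := by
  intro z η h
  by_cases h0 : η = 0
  · rw [h0, inner_zero_right]
  have hz : ‖z‖ = 1 := by
    have h1 := congrArg norm h
    have h2 := Pool.Agent.Helper40.Wiener.norm_pow_apply U hU 1 η
    rw [pow_one] at h2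
    rw [h2, norm_smul] at h1
    have h3 : ‖η‖ ≠ 0 := norm_ne_zero_iff.2 h0
    have h4 : ‖η‖ * 1 = ‖η‖ * ‖z‖ := by rw [mul_one]; rw [mul_comm]; exact h1
    exact (mul_left_cancel₀ h3 h4).symm
  have hm : η ∈ PP U :=
    Submodule.le_topologicalClosure _ (Submodule.subset_span ⟨z, hz, h⟩)
  exact (Submodule.mem_orthogonal' _ _).1 hξ η hm

end hilbert

theorem st_ZWS (hWU : ST_ZWU) : ST_ZWS := by
  intro Ω _ μ _ R R' d φ hS hφm hφu c ε hc hε
  obtain ⟨W, hW, hWk⟩ := hWU Ω μ R R' d φ hS hφm hφu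
  set fc : Lp (E d) 2 μ := hc.toLp c with hfc
  have : CompleteSpace (PP W) := by
    have : IsClosed ((PP W : Submodule ℂ (Lp (E d) 2 μ)) : Set (Lp (E d) 2 μ)) :=
      Submodule.isClosed_topologicalClosure _
    exact this.completeSpace_coe
  set p : Lp (E d) 2 μ := ((PP W).orthogonalProjectionOnto fc : Lp (E d) 2 μ) with hp
  set w : Lp (E d) 2 μ := fc - p with hw
  have hwp : w ∈ (PP W)ᗮ := by
    rw [hw, hp]
    exact Submodule.sub_starProjection_mem_orthogonal fc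
  have hpm : p ∈ PP W := Submodule.coe_mem _
  -- approximation in the span
  have h1 : p ∈ closure ((Submodule.span ℂ {η : Lp (E d) 2 μ | Eig W η} : Submodule ℂ _) :
      Set (Lp (E d) 2 μ)) := hpm
  obtain ⟨s, hs, hps⟩ := Metric.mem_closure_iff.1 h1 (√ε) (Real.sqrt_pos.2 hε)
  obtain ⟨n, a, η, hsum⟩ := Submodule.mem_span_set'.1 hs
  have hη : ∀ i, ∃ z : ℂ, ‖z‖ = 1 ∧ W (η i : Lp (E d) 2 μ) = z • (η i : Lp (E d) 2 μ) :=
    fun i => (η i).2
  choose z hz1 hz2 using hη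
  refine ⟨n, fun i => ((a i • (η i : Lp (E d) 2 μ) : Lp (E d) 2 μ) : Ω → E d), z,
    (w : Ω → E d), fun i => ⟨Lp.memLp _, hz1 i, ?_⟩, ⟨Lp.memLp _, fun g hg => ?_⟩, ?_⟩
  · set v : Lp (E d) 2 μ := a i • (η i : Lp (E d) 2 μ) with hv
    have h2 := hWk (v : Ω → E d) v (Eventually.of_forall fun _ => rfl) 1
    have h3 : W v = z i • v := by
      rw [hv, map_smul, hz2 i, smul_comm]
    rw [pow_one, h3] at h2
    filter_upwards [h2, Lp.coeFn_smul (z i) v] with x hx1 hx2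
    rw [hx2] at hx1
    have h4 : Wk R φ 1 (v : Ω → E d) x = star (φ x) ((v : Ω → E d) (R x)) := by
      unfold Pool.Agent.Helper16.BZ.Wk
      have : Pool.Agent.Helper16.BZ.co R φ 1 x = φ x := by
        show φ (R^[0] x) * 1 = φ x
        rw [mul_one]
        rfl
      rw [this]
      rfl
    rw [← h4, ← hx1]
    rfl
  · have hwm := wm_all W hW w (hg.toLp g) (perp_eig W hW w hwp)
    refine hwm.congr fun N => ?_
    congr 1
    refine sum_congr rfl fun h _ => ?_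
    congr 2
    rw [L2.inner_def]
    refine integral_congr_ae ?_
    filter_upwards [hWk (w : Ω → E d) w (Eventually.of_forall fun _ => rfl) h,
      hg.coeFn_toLp] with x hx1 hx2
    rw [hx1, hx2]
  · -- the norm
    have hsb : ∀ᵐ x ∂μ, (s : Ω → E d) x =
        ∑ i, ((a i • (η i : Lp (E d) 2 μ) : Lp (E d) 2 μ) : Ω → E d) x := by
      rw [← hsum]
      have := Lp.coeFn_finsetSum (s := (Finset.univ : Finset (Fin n)))
        (f := fun i => (a i • (η i : Lp (E d) 2 μ) : Lp (E d) 2 μ))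
      filter_upwards [this] with x hx
      rw [hx, Finset.sum_apply]
    have h2 : ∫ x, ‖c x - (∑ i, ((a i • (η i : Lp (E d) 2 μ) : Lp (E d) 2 μ) : Ω → E d) x) -
        (w : Ω → E d) x‖ ^ 2 ∂μ = ∫ x, ‖((p - s : Lp (E d) 2 μ) : Ω → E d) x‖ ^ 2 ∂μ := by
      refine integral_congr_ae ?_
      have e1 : p - s = fc - s - w := by rw [hw]; abel
      rw [e1]
      filter_upwards [hsb, Lp.coeFn_sub (fc - s) w, Lp.coeFn_sub fc s, hc.coeFn_toLp] with
        x hx1 hx2 hx3 hx4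
      rw [hx2, Pi.sub_apply, hx3, Pi.sub_apply, hx4, hx1]
    rw [h2]
    have h3 : ∫ x, ‖((p - s : Lp (E d) 2 μ) : Ω → E d) x‖ ^ 2 ∂μ = ‖p - s‖ ^ 2 := by
      have h4 : (inner ℂ (p - s) (p - s) : ℂ) = ((‖p - s‖ ^ 2 : ℝ) : ℂ) := by
        rw [inner_self_eq_norm_sq_to_K]
        push_cast
        rfl
      rw [L2.inner_def] at h4
      have h5 : ∫ x, (inner ℂ (((p - s : Lp (E d) 2 μ) : Ω → E d) x)
          (((p - s : Lp (E d) 2 μ) : Ω → E d) x) : ℂ) ∂μ =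
          ∫ x, ((‖((p - s : Lp (E d) 2 μ) : Ω → E d) x‖ ^ 2 : ℝ) : ℂ) ∂μ := by
        refine integral_congr_ae (Eventually.of_forall fun x => ?_)
        show (inner ℂ _ _ : ℂ) = _
        rw [inner_self_eq_norm_sq_to_K]
        push_cast
        rfl
      rw [h5, integral_complex_ofReal] at h4
      exact_mod_cast h4
    rw [h3]
    have h6 : ‖p - s‖ < √ε := by rwa [← dist_eq_norm]
    calc ‖p - s‖ ^ 2 ≤ (√ε) ^ 2 := by
          exact pow_le_pow_left₀ (norm_nonneg _) h6.le 2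
      _ = ε := Real.sq_sqrt hε.le

end Pool.Agent.Helper99.ZB
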